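import Pool.Agent.W709.VC.Defs

/-!
# Deformation of the contour of the odd meromorphic integrand `Fint` (task VC-PATH)
-/

set_option autoImplicit false

namespace Pool.Agent.W634.VC

open Pool.Agent.W709.VC
open scoped Real Topology

lemma cos_add_nat (N : ℕ) (z : ℂ) : Complex.cos (z + N * π) = (-1) ^ N * Complex.cos z := by
  have := Complex.cos_antiperiodic.add_nat_mul_eq (x := z) N
  simpa using this

lemma cos_sq_neg (N : ℕ) (ψ : ℂ) :
    Complex.cos (N * (-ψ + π) / 2) ^ 2 = Complex.cos (N * (ψ + π) / 2) ^ 2 := by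
  have h1 : (N * (-ψ + π) / 2 : ℂ) = -(N * (ψ + π) / 2) + N * π := by ring
  rw [h1, cos_add_nat, Complex.cos_neg, mul_pow, ← pow_mul, mul_comm N 2, pow_mul]
  simp

lemma RR_neg (N d : ℕ) (ψ : ℂ) : RR N d (-ψ) = RR N d ψ := by
  simp [RR, Complex.cos_neg]

lemma Fint_neg (A N d : ℕ) (ψ : ℂ) : Fint A N d (-ψ) = -Fint A N d ψ := by
  unfold Fint
  rw [cos_sq_neg, RR_neg, Complex.sin_neg, neg_sq]
  ring

lemma cos_ne (N : ℕ) (hN : 2 ≤ N) (ψ : ℂ) (h : ψ.im ≠ 0) :
    Complex.cos (N * (ψ + π) / 2) ≠ 0 := by
  intro h0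
  rw [Complex.cos_eq_zero_iff] at h0
  obtain ⟨k, hk⟩ := h0
  have h1 := congrArg Complex.im hk
  have h2 : (N * (ψ + π) / 2 : ℂ).im = N * ψ.im / 2 := by
    have : (N * (ψ + π) / 2 : ℂ) = ((N / 2 : ℝ) : ℂ) * (ψ + π) := by push_cast; ring
    rw [this, Complex.im_ofReal_mul]
    simp
    ring
  have h3 : ((2 * (k : ℂ) + 1) * π / 2).im = 0 := by
    have : ((2 * (k : ℂ) + 1) * π / 2) = (((2 * (k : ℝ) + 1) * π / 2 : ℝ) : ℂ) := by push_cast; ring
    rw [this, Complex.ofReal_im]
  rw [h2, h3] at h1
  have hN' : (0 : ℝ) < N := by exact_mod_cast (by omega : 0 < N)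
  apply h
  have : (N : ℝ) * ψ.im = 0 := by linarith
  rcases mul_eq_zero.1 this with h4 | h4
  · exact absurd h4 hN'.ne'
  · exact h4

/-- on the lines `Re = ± π` the denominator does not vanish either -/
lemma cos_ne' (N : ℕ) (y : ℝ) : Complex.cos (N * (π + y * Complex.I + π) / 2) ≠ 0 := by
  have h1 : (N * (π + y * Complex.I + π) / 2 : ℂ) = (N * y / 2 : ℝ) * Complex.I + N * π := by
    push_cast; ring
  rw [h1, cos_add_nat, Complex.cos_mul_I]
  apply mul_ne_zero
  · exact pow_ne_zero _ (by norm_num)
  · rw [← Complex.ofReal_cosh]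
    exact_mod_cast (Real.cosh_pos _).ne'

lemma differentiableAt_Fint (A N d : ℕ) (ψ : ℂ) (h : Complex.cos (N * (ψ + π) / 2) ≠ 0) :
    DifferentiableAt ℂ (Fint A N d) ψ := by
  unfold Fint RR
  apply DifferentiableAt.div
  · apply DifferentiableAt.mul
    · apply DifferentiableAt.mul
      · fun_prop
      · fun_prop
    · fun_prop
  · fun_prop
  · exact mul_ne_zero (by norm_num) (pow_ne_zero _ h)

theorem rect_eq (f : ℂ → ℂ) (hodd : ∀ z, f (-z) = -f z)
    (h : ℝ) (hc : Continuous fun y : ℝ => f (π + y * Complex.I)) :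
    rect f (-π) π (-h) h = -2 * (∫ x in (-π)..π, f (x + h * Complex.I)) +
      2 * Complex.I * (∫ y in (0:ℝ)..h, f (π + y * Complex.I)) -
      2 * Complex.I * (∫ y in (0:ℝ)..h, f (-π + y * Complex.I)) := by
  have e1 : (∫ x in (-π)..π, f (x + (-h : ℝ) * Complex.I)) =
      - ∫ x in (-π)..π, f (x + h * Complex.I) := by
    have := intervalIntegral.integral_comp_neg (a := -π) (b := π)
      (fun x : ℝ => f (x + (-h : ℝ) * Complex.I))
    rw [neg_neg] at this
    rw [← this, ← intervalIntegral.integral_neg]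
    congr 1
    funext x
    rw [← hodd]
    congr 1
    push_cast
    ring
  have e2 : ∀ u v : ℝ, (∫ y in u..v, f (-π + y * Complex.I)) =
      - ∫ y in (-v)..(-u), f (π + y * Complex.I) := by
    intro u v
    rw [← intervalIntegral.integral_comp_neg (fun y : ℝ => f (π + y * Complex.I)),
      ← intervalIntegral.integral_neg]
    congr 1
    funext x
    rw [← hodd]
    congr 1
    push_cast
    ring
  have e3 : (∫ y in (-h)..h, f (π + y * Complex.I)) =
      (∫ y in (-h)..0, f (π + y * Complex.I)) + ∫ y in (0:ℝ)..h, f (π + y * Complex.I) :=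
    (intervalIntegral.integral_add_adjacent_intervals (hc.intervalIntegrable _ _)
      (hc.intervalIntegrable _ _)).symm
  unfold rect
  have e4 := e2 (-h) h
  have e5 := e2 0 h
  rw [neg_neg] at e4
  rw [neg_zero] at e5
  push_cast at *
  rw [e1, e4, e5, e3]
  ring

theorem path : Pool.Agent.W709.VC.S_PATH := by
  intro A N d hN h η b hh hη hb
  have hcr : Continuous fun y : ℝ => Fint A N d (π + y * Complex.I) := by
    rw [continuous_iff_continuousAt]
    intro y
    have := (differentiableAt_Fint A N d (π + y * Complex.I) (cos_ne' N y)).continuousAt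
    exact ContinuousAt.comp (f := fun y : ℝ => (π + y * Complex.I : ℂ)) this (by fun_prop)
  rw [rect_eq (Fint A N d) (Fint_neg A N d) h hcr]
  have hline : Continuous fun x : ℝ => Fint A N d (x + h * Complex.I) := by
    rw [continuous_iff_continuousAt]
    intro x
    have := (differentiableAt_Fint A N d (x + h * Complex.I)
      (cos_ne N hN _ (by simp [hh.ne']))).continuousAt
    exact ContinuousAt.comp (f := fun x : ℝ => (x + h * Complex.I : ℂ)) this (by fun_prop)
  have hsplit : (∫ x in (-π)..π, Fint A N d (x + h * Complex.I)) =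
      (∫ x in (-π)..(-b), Fint A N d (x + h * Complex.I)) +
        ∫ x in (-b)..π, Fint A N d (x + h * Complex.I) :=
    (intervalIntegral.integral_add_adjacent_intervals (hline.intervalIntegrable _ _)
      (hline.intervalIntegrable _ _)).symm
  have hcauchy := Complex.integral_boundary_rect_eq_zero_of_differentiableOn
    (Fint A N d) (-b + h * Complex.I) (π + η * Complex.I) (by
      intro z hz
      apply DifferentiableAt.differentiableWithinAt
      apply differentiableAt_Fint
      apply cos_ne N hN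
      have hz2 := hz.2
      simp only [Complex.add_im, Complex.neg_im, Complex.ofReal_im, Complex.mul_im,
        Complex.ofReal_re, Complex.I_im, Complex.I_re, Set.mem_preimage] at hz2
      have : z.im ∈ Set.uIcc h η := by simpa using hz2
      rw [Set.uIcc_of_le hη] at this
      have := this.1
      linarith)
  simp only [Complex.add_re, Complex.neg_re, Complex.ofReal_re, Complex.mul_re, Complex.I_re,
    Complex.ofReal_im, Complex.I_im, Complex.add_im, Complex.neg_im, Complex.mul_im, mul_zero,
    mul_one, zero_mul, sub_zero, add_zero, zero_add, neg_zero, sub_self, smul_eq_mul,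
    Complex.ofReal_neg] at hcauchy
  have hsplit2 : (∫ y in (0:ℝ)..η, Fint A N d (π + y * Complex.I)) =
      (∫ y in (0:ℝ)..h, Fint A N d (π + y * Complex.I)) +
        ∫ y in h..η, Fint A N d (π + y * Complex.I) :=
    (intervalIntegral.integral_add_adjacent_intervals (hcr.intervalIntegrable _ _)
      (hcr.intervalIntegrable _ _)).symm
  unfold Pool.Agent.W709.VC.path
  rw [hsplit, hsplit2]
  linear_combination (-2) * hcauchy

end Pool.Agent.W634.VC
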